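import Mathlib
import Pool.Agent.H964Z.CritMain

set_option autoImplicit false

namespace Pool.Agent.Results.MP_c0911c_al.AMonolithic

open Pool.Agent.H964Z.Crit

/-- A finite commutative ring (identity not required) is critical exactly when it is subdirectly
irreducible, that is, when it has a least nonzero ideal. -/
theorem result (R : Type) [NonUnitalCommRing R] [Finite R] :
    IsCritical R ↔ ∃ M : TwoSidedIdeal R, M ≠ ⊥ ∧ ∀ I : TwoSidedIdeal R, I ≠ ⊥ → M ≤ I :=
  ⟨monolith_of_critical, fun ⟨M, hM, h⟩ => critical_of_monolith M hM h⟩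

end Pool.Agent.Results.MP_c0911c_al.AMonolithic
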